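import Mathlib

namespace Pool.Agent.Results.MP_1fb722_al.OrderingsExcluded

/-- `x ≼ y`: the difference `y - x` lies in `Γ`. -/
def DivLe (Γ : AddSubmonoid ℕ) (x y : ℕ) : Prop := ∃ g ∈ Γ, y = x + g

/-- From each finite sequence of elements of `Γ` whose sum is divisible by `x` one can select at
most `N` terms whose sum is still divisible by `x`. -/
def OmegaBound (Γ : AddSubmonoid ℕ) (x N : ℕ) : Prop :=
  ∀ l : List ℕ, (∀ a ∈ l, a ∈ Γ) → DivLe Γ x l.sum →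
    ∃ t : List ℕ, t.Sublist l ∧ t.length ≤ N ∧ DivLe Γ x t.sum

/-- The `ω`-primality value of `x`. -/
noncomputable def omegaVal (Γ : AddSubmonoid ℕ) (x : ℕ) : ℕ :=
  sInf {N | 0 < N ∧ OmegaBound Γ x N}

section main
variable (n₁ n₂ n₃ : ℕ)

/-- The monoid generated by `n₁, n₂, n₃`. -/
def gen : AddSubmonoid ℕ := AddSubmonoid.closure {n₁, n₂, n₃}

/-- Divisibility in coordinates. -/
def P (x y : ℕ) : Prop := ∃ α β δ : ℕ, y = x + (α * n₁ + β * n₂ + δ * n₃)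

theorem mem_gen (g : ℕ) : g ∈ gen n₁ n₂ n₃ ↔ ∃ α β δ : ℕ, g = α * n₁ + β * n₂ + δ * n₃ := by
  constructor
  · intro hg
    induction hg using AddSubmonoid.closure_induction with
    | mem x hx =>
      simp only [Set.mem_insert_iff, Set.mem_singleton_iff] at hx
      rcases hx with rfl | rfl | rfl
      · exact ⟨1, 0, 0, by ring⟩
      · exact ⟨0, 1, 0, by ring⟩
      · exact ⟨0, 0, 1, by ring⟩
    | zero => exact ⟨0, 0, 0, by ring⟩
    | add x y _ _ hx hy =>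
      obtain ⟨a, b, c, rfl⟩ := hx
      obtain ⟨a', b', c', rfl⟩ := hy
      exact ⟨a + a', b + b', c + c', by ring⟩
  · rintro ⟨a, b, c, rfl⟩
    have h1 : n₁ ∈ gen n₁ n₂ n₃ := AddSubmonoid.subset_closure (by simp)
    have h2 : n₂ ∈ gen n₁ n₂ n₃ := AddSubmonoid.subset_closure (by simp)
    have h3 : n₃ ∈ gen n₁ n₂ n₃ := AddSubmonoid.subset_closure (by simp)
    refine add_mem (add_mem ?_ ?_) ?_ <;> rw [← smul_eq_mul]
    · exact nsmul_mem h1 a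
    · exact nsmul_mem h2 b
    · exact nsmul_mem h3 c

theorem divLe_iff (x y : ℕ) : DivLe (gen n₁ n₂ n₃) x y ↔ P n₁ n₂ n₃ x y := by
  constructor
  · rintro ⟨g, hg, rfl⟩
    obtain ⟨a, b, c, rfl⟩ := (mem_gen n₁ n₂ n₃ g).mp hg
    exact ⟨a, b, c, rfl⟩
  · rintro ⟨a, b, c, rfl⟩
    exact ⟨_, (mem_gen n₁ n₂ n₃ _).mpr ⟨a, b, c, rfl⟩, rfl⟩

/-- Minimal exponent vectors of elements divisible by `x`. -/
def IsBullet (x b₁ b₂ b₃ : ℕ) : Prop :=
  P n₁ n₂ n₃ x (b₁ * n₁ + b₂ * n₂ + b₃ * n₃) ∧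
    ∀ c₁ c₂ c₃ : ℕ, c₁ ≤ b₁ → c₂ ≤ b₂ → c₃ ≤ b₃ →
      P n₁ n₂ n₃ x (c₁ * n₁ + c₂ * n₂ + c₃ * n₃) → c₁ = b₁ ∧ c₂ = b₂ ∧ c₃ = b₃

theorem exists_bullet (x : ℕ) : ∀ (N a b c : ℕ), a + b + c = N →
    P n₁ n₂ n₃ x (a * n₁ + b * n₂ + c * n₃) →
    ∃ a' b' c', a' ≤ a ∧ b' ≤ b ∧ c' ≤ c ∧ IsBullet n₁ n₂ n₃ x a' b' c' := by
  intro N
  induction N using Nat.strong_induction_on with
  | _ N ih =>
    intro a b c hN hP
    by_cases h : IsBullet n₁ n₂ n₃ x a b c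
    · exact ⟨a, b, c, le_refl _, le_refl _, le_refl _, h⟩
    · have h' : ∃ c₁ c₂ c₃ : ℕ, c₁ ≤ a ∧ c₂ ≤ b ∧ c₃ ≤ c ∧
          P n₁ n₂ n₃ x (c₁ * n₁ + c₂ * n₂ + c₃ * n₃) ∧ ¬ (c₁ = a ∧ c₂ = b ∧ c₃ = c) := by
        by_contra hcon
        apply h
        refine ⟨hP, fun c₁ c₂ c₃ h1 h2 h3 h4 => ?_⟩
        by_contra h5
        exact hcon ⟨c₁, c₂, c₃, h1, h2, h3, h4, h5⟩
      obtain ⟨c₁, c₂, c₃, h1, h2, h3, h4, h5⟩ := h'
      have hlt : c₁ + c₂ + c₃ < N := by omega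
      obtain ⟨a', b', c', g1, g2, g3, g4⟩ := ih _ hlt c₁ c₂ c₃ rfl h4
      exact ⟨a', b', c', g1.trans h1, g2.trans h2, g3.trans h3, g4⟩

/-- Selecting terms covering an exponent vector. -/
theorem cover (p q s : ℕ → ℕ) (l : List ℕ) : ∀ b₁ b₂ b₃ : ℕ, b₁ ≤ (l.map p).sum →
    b₂ ≤ (l.map q).sum → b₃ ≤ (l.map s).sum → ∃ t : List ℕ, t.Sublist l ∧
      t.length ≤ b₁ + b₂ + b₃ ∧ b₁ ≤ (t.map p).sum ∧ b₂ ≤ (t.map q).sum ∧
        b₃ ≤ (t.map s).sum := by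
  induction l with
  | nil =>
    intro b₁ b₂ b₃ h1 h2 h3
    exact ⟨[], List.Sublist.refl _, by simp, h1, h2, h3⟩
  | cons a l ih =>
    intro b₁ b₂ b₃ h1 h2 h3
    simp only [List.map_cons, List.sum_cons] at h1 h2 h3
    obtain ⟨t, ht, hlen, g1, g2, g3⟩ := ih (b₁ - p a) (b₂ - q a) (b₃ - s a)
      (by omega) (by omega) (by omega)
    by_cases hz : b₁ - p a = b₁ ∧ b₂ - q a = b₂ ∧ b₃ - s a = b₃
    · refine ⟨t, ht.cons a, by omega, by omega, by omega, by omega⟩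
    · refine ⟨a :: t, ht.cons_cons a, ?_, ?_, ?_, ?_⟩
      · rw [List.length_cons]; omega
      · simp only [List.map_cons, List.sum_cons]; omega
      · simp only [List.map_cons, List.sum_cons]; omega
      · simp only [List.map_cons, List.sum_cons]; omega

theorem omegaBound_of (x N : ℕ)
    (h : ∀ b₁ b₂ b₃, IsBullet n₁ n₂ n₃ x b₁ b₂ b₃ → b₁ + b₂ + b₃ ≤ N) :
    OmegaBound (gen n₁ n₂ n₃) x N := by
  classical
  have hfac : ∀ a : ℕ, ∃ p q s : ℕ, a ∈ gen n₁ n₂ n₃ → a = p * n₁ + q * n₂ + s * n₃ := by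
    intro a
    by_cases ha : a ∈ gen n₁ n₂ n₃
    · obtain ⟨p, q, s, h⟩ := (mem_gen n₁ n₂ n₃ a).mp ha
      exact ⟨p, q, s, fun _ => h⟩
    · exact ⟨0, 0, 0, fun h => absurd h ha⟩
  choose p q s hpqs using hfac
  have hsum : ∀ l : List ℕ, (∀ a ∈ l, a ∈ gen n₁ n₂ n₃) →
      l.sum = (l.map p).sum * n₁ + (l.map q).sum * n₂ + (l.map s).sum * n₃ := by
    intro l
    induction l with
    | nil => intro _; simp
    | cons a l ih =>
      intro hl
      have h1 := ih (fun b hb => hl b (by simp [hb]))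
      have h2 := hpqs a (hl a (by simp))
      simp only [List.map_cons, List.sum_cons]
      rw [h1]
      conv_lhs => rw [h2]
      ring
  intro l hl hx
  rw [divLe_iff, hsum l hl] at hx
  obtain ⟨b₁, b₂, b₃, g1, g2, g3, hb⟩ := exists_bullet n₁ n₂ n₃ x _ _ _ _ rfl hx
  obtain ⟨t, ht, hlen, k1, k2, k3⟩ := cover p q s l b₁ b₂ b₃ g1 g2 g3
  refine ⟨t, ht, hlen.trans (h _ _ _ hb), ?_⟩
  rw [divLe_iff, hsum t (fun a ha => hl a (ht.subset ha))]
  obtain ⟨α, β, δ, e⟩ := hb.1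
  refine ⟨α + ((t.map p).sum - b₁), β + ((t.map q).sum - b₂), δ + ((t.map s).sum - b₃), ?_⟩
  obtain ⟨d1, hd1⟩ := Nat.exists_eq_add_of_le k1
  obtain ⟨d2, hd2⟩ := Nat.exists_eq_add_of_le k2
  obtain ⟨d3, hd3⟩ := Nat.exists_eq_add_of_le k3
  rw [hd1, hd2, hd3]
  simp only [Nat.add_sub_cancel_left]
  linarith

/-- Every bullet has bounded size when the complement of the monoid is finite. -/
theorem bullet_bound (h1 : 0 < n₁) (h2 : 0 < n₂) (h3 : 0 < n₃) (F : ℕ)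
    (hF : ∀ m, F ≤ m → m ∈ gen n₁ n₂ n₃) (x b₁ b₂ b₃ : ℕ)
    (hb : IsBullet n₁ n₂ n₃ x b₁ b₂ b₃) : b₁ + b₂ + b₃ ≤ x + F := by
  by_contra hcon
  have key : ∀ c₁ c₂ c₃ : ℕ, x + F ≤ c₁ + c₂ + c₃ →
      P n₁ n₂ n₃ x (c₁ * n₁ + c₂ * n₂ + c₃ * n₃) := by
    intro c₁ c₂ c₃ hc
    have e1 : c₁ ≤ c₁ * n₁ := Nat.le_mul_of_pos_right _ h1
    have e2 : c₂ ≤ c₂ * n₂ := Nat.le_mul_of_pos_right _ h2
    have e3 : c₃ ≤ c₃ * n₃ := Nat.le_mul_of_pos_right _ h3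
    rw [← divLe_iff]
    exact ⟨c₁ * n₁ + c₂ * n₂ + c₃ * n₃ - x, hF _ (by omega), by omega⟩
  rcases Nat.eq_zero_or_pos b₁ with hz1 | hz1
  · rcases Nat.eq_zero_or_pos b₂ with hz2 | hz2
    · have := hb.2 b₁ b₂ (b₃ - 1) (le_refl _) (le_refl _) (by omega) (key _ _ _ (by omega))
      omega
    · have := hb.2 b₁ (b₂ - 1) b₃ (le_refl _) (by omega) (le_refl _) (key _ _ _ (by omega))
      omega
  · have := hb.2 (b₁ - 1) b₂ b₃ (by omega) (le_refl _) (le_refl _) (key _ _ _ (by omega))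
    omega

variable {n₁ n₂ n₃}

theorem omega_mem (h1 : 0 < n₁) (h2 : 0 < n₂) (h3 : 0 < n₃)
    (hcof : ((gen n₁ n₂ n₃ : Set ℕ)ᶜ).Finite) (x : ℕ) :
    0 < omegaVal (gen n₁ n₂ n₃) x ∧
      OmegaBound (gen n₁ n₂ n₃) x (omegaVal (gen n₁ n₂ n₃) x) := by
  obtain ⟨F, hF⟩ := hcof.bddAbove
  have hF' : ∀ m, F + 1 ≤ m → m ∈ gen n₁ n₂ n₃ := by
    intro m hm
    by_contra hcon
    have := hF hcon
    omega
  apply Nat.sInf_mem (s := {N | 0 < N ∧ OmegaBound (gen n₁ n₂ n₃) x N})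
  refine ⟨x + (F + 1), by omega, ?_⟩
  exact omegaBound_of n₁ n₂ n₃ x _
    (fun b₁ b₂ b₃ hb => bullet_bound n₁ n₂ n₃ h1 h2 h3 (F + 1) hF' x b₁ b₂ b₃ hb)

theorem omega_le (x N : ℕ) (hN : 0 < N)
    (h : ∀ b₁ b₂ b₃, IsBullet n₁ n₂ n₃ x b₁ b₂ b₃ → b₁ + b₂ + b₃ ≤ N) :
    omegaVal (gen n₁ n₂ n₃) x ≤ N :=
  Nat.sInf_le ⟨hN, omegaBound_of n₁ n₂ n₃ x N h⟩

theorem le_omega (h1 : 0 < n₁) (h2 : 0 < n₂) (h3 : 0 < n₃)
    (hcof : ((gen n₁ n₂ n₃ : Set ℕ)ᶜ).Finite) (x p q : ℕ)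
    (hb : IsBullet n₁ n₂ n₃ x p q 0) : p + q ≤ omegaVal (gen n₁ n₂ n₃) x := by
  have hω := (omega_mem h1 h2 h3 hcof x).2
  have g1 : n₁ ∈ gen n₁ n₂ n₃ := AddSubmonoid.subset_closure (by simp)
  have g2 : n₂ ∈ gen n₁ n₂ n₃ := AddSubmonoid.subset_closure (by simp)
  obtain ⟨t, ht, hlen, hx⟩ := hω (List.replicate p n₁ ++ List.replicate q n₂) (by
    intro a ha
    rw [List.mem_append] at ha
    rcases ha with ha | ha
    · rw [List.eq_of_mem_replicate ha]; exact g1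
    · rw [List.eq_of_mem_replicate ha]; exact g2) (by
    rw [divLe_iff, List.sum_append, List.sum_replicate, List.sum_replicate]
    simpa using hb.1)
  obtain ⟨t1, t2, rfl, k1, k2⟩ := List.sublist_append_iff.mp ht
  obtain ⟨p', hp', rfl⟩ := List.sublist_replicate_iff.mp k1
  obtain ⟨q', hq', rfl⟩ := List.sublist_replicate_iff.mp k2
  rw [divLe_iff, List.sum_append, List.sum_replicate, List.sum_replicate] at hx
  have := hb.2 p' q' 0 hp' hq' (le_refl _) (by simpa using hx)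
  rw [List.length_append, List.length_replicate, List.length_replicate] at hlen
  omega

/-- The exceptional configuration. -/
def Q (n₁ n₂ n₃ k₂ k₃ : ℕ) : Prop :=
  0 < k₂ ∧ 0 < k₃ ∧ k₂ * n₂ = k₃ * n₃ ∧ ¬ P n₁ n₂ n₃ n₁ (k₂ * n₂) ∧
    (∀ k, P n₁ n₂ n₃ n₃ (k * n₂) → k₂ ≤ k) ∧ (∀ k, P n₁ n₂ n₃ n₂ (k * n₃) → k₃ ≤ k)

/-- The least multiple of `n₁` divisible by `n₃`. -/
theorem exists_A13 (h1 : 0 < n₁) (h3 : 0 < n₃) : ∃ u : ℕ, P n₁ n₂ n₃ n₃ (u * n₁) ∧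
    (∀ k, P n₁ n₂ n₃ n₃ (k * n₁) → u ≤ k) ∧ IsBullet n₁ n₂ n₃ n₃ u 0 0 := by
  classical
  have hex : ∃ u, P n₁ n₂ n₃ n₃ (u * n₁) := by
    obtain ⟨m, hm⟩ : ∃ m, n₁ = m + 1 := ⟨n₁ - 1, by omega⟩
    exact ⟨n₃, 0, 0, m, by rw [hm]; ring⟩
  refine ⟨Nat.find hex, Nat.find_spec hex, fun k hk => Nat.find_min' hex hk, ?_, ?_⟩
  · simpa using Nat.find_spec hex
  · intro c₁ c₂ c₃ e1 e2 e3 h
    obtain rfl : c₂ = 0 := by omega
    obtain rfl : c₃ = 0 := by omega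
    refine ⟨le_antisymm e1 (Nat.find_min' hex (by simpa using h)), rfl, rfl⟩

theorem exists_A23 (h2 : 0 < n₂) (h3 : 0 < n₃) : ∃ u : ℕ, P n₁ n₂ n₃ n₃ (u * n₂) ∧
    (∀ k, P n₁ n₂ n₃ n₃ (k * n₂) → u ≤ k) ∧ IsBullet n₁ n₂ n₃ n₃ 0 u 0 := by
  classical
  have hex : ∃ u, P n₁ n₂ n₃ n₃ (u * n₂) := by
    obtain ⟨m, hm⟩ : ∃ m, n₂ = m + 1 := ⟨n₂ - 1, by omega⟩
    exact ⟨n₃, 0, 0, m, by rw [hm]; ring⟩
  refine ⟨Nat.find hex, Nat.find_spec hex, fun k hk => Nat.find_min' hex hk, ?_, ?_⟩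
  · simpa using Nat.find_spec hex
  · intro c₁ c₂ c₃ e1 e2 e3 h
    obtain rfl : c₁ = 0 := by omega
    obtain rfl : c₃ = 0 := by omega
    refine ⟨rfl, le_antisymm e2 (Nat.find_min' hex (by simpa using h)), rfl⟩

/-- Outside the exceptional configuration the bullets of `n₁` are not larger than the value at
`n₃`. -/
theorem bullets_one (h1 : 0 < n₁) (h12 : n₁ < n₂) (h23 : n₂ < n₃)
    (hcof : ((gen n₁ n₂ n₃ : Set ℕ)ᶜ).Finite) (hQ : ¬ ∃ k₂ k₃, Q n₁ n₂ n₃ k₂ k₃)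
    (b u v : ℕ) (hb : IsBullet n₁ n₂ n₃ n₁ b u v) :
    b + u + v ≤ omegaVal (gen n₁ n₂ n₃) n₃ := by
  have h2 : 0 < n₂ := by omega
  have h3 : 0 < n₃ := by omega
  have hpos := (omega_mem h1 h2 h3 hcof n₃).1
  by_cases hb0 : 0 < b
  · have := hb.2 1 0 0 (by omega) (by omega) (by omega) ⟨0, 0, 0, by ring⟩
    omega
  obtain rfl : b = 0 := by omega
  obtain ⟨α, β, δ, e⟩ := hb.1
  by_cases hu : 0 < u
  · -- `β = 0`
    have hβ : β = 0 := by
      by_contra hβ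
      obtain ⟨β', rfl⟩ : ∃ β', β = β' + 1 := ⟨β - 1, by omega⟩
      obtain ⟨u', rfl⟩ : ∃ u', u = u' + 1 := ⟨u - 1, by omega⟩
      have := hb.2 0 u' v (le_refl _) (by omega) (le_refl _) ⟨α, β', δ, by linarith⟩
      omega
    subst hβ
    by_cases hv : 0 < v
    · -- interior
      have hδ : δ = 0 := by
        by_contra hδ
        obtain ⟨δ', rfl⟩ : ∃ δ', δ = δ' + 1 := ⟨δ - 1, by omega⟩
        obtain ⟨v', rfl⟩ : ∃ v', v = v' + 1 := ⟨v - 1, by omega⟩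
        have := hb.2 0 u v' (le_refl _) (le_refl _) (by omega) ⟨α, 0, δ', by linarith⟩
        omega
      subst hδ
      obtain ⟨v', rfl⟩ : ∃ v', v = v' + 1 := ⟨v - 1, by omega⟩
      have hbul : IsBullet n₁ n₂ n₃ n₃ (α + 1) 0 0 := by
        refine ⟨⟨0, u, v', by linarith⟩, ?_⟩
        intro c₁ c₂ c₃ e1 e2 e3 hP
        obtain rfl : c₂ = 0 := by omega
        obtain rfl : c₃ = 0 := by omega
        refine ⟨?_, rfl, rfl⟩
        by_contra hne
        obtain ⟨d, hd⟩ : ∃ d, α = c₁ + d := ⟨α - c₁, by omega⟩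
        obtain ⟨a, b, c, e'⟩ := hP
        have := hb.2 0 u v' (le_refl _) (le_refl _) (by omega) ⟨a + d, b, c, by
          rw [hd] at e
          linarith⟩
        omega
      have hle := le_omega h1 h2 h3 hcof n₃ (α + 1) 0 hbul
      have hlt : u + (v' + 1) < α + 1 := by
        have k1 : u * n₁ + (v' + 1) * n₁ < u * n₂ + (v' + 1) * n₃ := by nlinarith
        have k2 : (u + (v' + 1)) * n₁ < (α + 1) * n₁ := by linarith
        exact lt_of_mul_lt_mul_right k2 (Nat.zero_le _)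
      omega
    · -- `(0, u, 0)`
      obtain rfl : v = 0 := by omega
      obtain ⟨k₂, hk, hkmin, hkb⟩ := exists_A23 (n₁ := n₁) h2 h3
      have hle := le_omega h1 h2 h3 hcof n₃ 0 k₂ hkb
      by_cases hcmp : u ≤ k₂
      · omega
      · exfalso
        apply hQ
        have hnot : ¬ P n₁ n₂ n₃ n₁ (k₂ * n₂) := by
          intro h
          have := hb.2 0 k₂ 0 (le_refl _) (by omega) (le_refl _) (by simpa using h)
          omega
        obtain ⟨a, b, c, e'⟩ := hk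
        have ha : a = 0 := by
          by_contra ha
          obtain ⟨a', rfl⟩ : ∃ a', a = a' + 1 := ⟨a - 1, by omega⟩
          exact hnot ⟨a', b, c + 1, by linarith⟩
        subst ha
        have hk₂ : 0 < k₂ := by
          rcases Nat.eq_zero_or_pos k₂ with h | h
          · exfalso
            rw [h] at e'
            have : 0 * n₂ = 0 := Nat.zero_mul _
            omega
          · exact h
        have hb0 : b = 0 := by
          by_contra hb0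
          obtain ⟨b', rfl⟩ : ∃ b', b = b' + 1 := ⟨b - 1, by omega⟩
          obtain ⟨k, rfl⟩ : ∃ k, k₂ = k + 1 := ⟨k₂ - 1, by omega⟩
          have := hkmin k ⟨0, b', c, by linarith⟩
          omega
        subst hb0
        refine ⟨k₂, c + 1, hk₂, by omega, by linarith, hnot, hkmin, ?_⟩
        intro k hP
        by_contra hlt
        obtain ⟨d, hd⟩ : ∃ d, c = k + d := ⟨c - k, by omega⟩
        obtain ⟨a, b, c', e''⟩ := hP
        obtain ⟨m, rfl⟩ : ∃ m, k₂ = m + 1 := ⟨k₂ - 1, by omega⟩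
        have := hkmin m ⟨a, b, c' + d, by rw [hd] at e'; linarith⟩
        omega
  · -- `(0, 0, v)`
    obtain rfl : u = 0 := by omega
    have hv : 0 < v := by
      rcases Nat.eq_zero_or_pos v with h | h
      · exfalso
        rw [h] at e
        simp at e
        omega
      · exact h
    have hδ : δ = 0 := by
      by_contra hδ
      obtain ⟨δ', rfl⟩ : ∃ δ', δ = δ' + 1 := ⟨δ - 1, by omega⟩
      obtain ⟨v', rfl⟩ : ∃ v', v = v' + 1 := ⟨v - 1, by omega⟩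
      have := hb.2 0 0 v' (le_refl _) (le_refl _) (by omega) ⟨α, β, δ', by linarith⟩
      omega
    subst hδ
    obtain ⟨v', rfl⟩ : ∃ v', v = v' + 1 := ⟨v - 1, by omega⟩
    by_cases hbul : IsBullet n₁ n₂ n₃ n₃ (α + 1) β 0
    · have hle := le_omega h1 h2 h3 hcof n₃ (α + 1) β hbul
      have hlt : v' + 1 < α + 1 + β := by
        have k1 : (α + 1) * n₁ + β * n₂ < (α + 1) * n₃ + β * n₃ := by
          have : (α + 1) * n₁ < (α + 1) * n₃ := Nat.mul_lt_mul_of_pos_left (by omega) (by omega)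
          have : β * n₂ ≤ β * n₃ := Nat.mul_le_mul_left _ h23.le
          omega
        have k2 : (v' + 1) * n₃ < (α + 1 + β) * n₃ := by linarith
        exact lt_of_mul_lt_mul_right k2 (Nat.zero_le _)
      omega
    · exfalso
      -- some `n₂` can be removed
      have hrem : ∃ c₁ c₂, c₁ ≤ α + 1 ∧ c₂ ≤ β ∧ P n₁ n₂ n₃ n₃ (c₁ * n₁ + c₂ * n₂) ∧
          ¬ (c₁ = α + 1 ∧ c₂ = β) := by
        by_contra hcon
        apply hbul
        refine ⟨⟨0, 0, v', by linarith⟩, fun c₁ c₂ c₃ e1 e2 e3 hP => ?_⟩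
        obtain rfl : c₃ = 0 := by omega
        by_contra hne
        apply hcon
        refine ⟨c₁, c₂, e1, e2, by simpa using hP, ?_⟩
        rintro ⟨rfl, rfl⟩
        exact hne ⟨rfl, rfl, rfl⟩
      obtain ⟨c₁, c₂, e1, e2, ⟨a, b, c, e'⟩, hne⟩ := hrem
      obtain ⟨d1, hd1⟩ := Nat.exists_eq_add_of_le e1
      obtain ⟨d2, hd2⟩ := Nat.exists_eq_add_of_le e2
      have hd1' : d1 = 0 := by
        by_contra hd
        obtain ⟨d, rfl⟩ : ∃ d, d1 = d + 1 := ⟨d1 - 1, by omega⟩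
        have hα : α = c₁ + d := by omega
        have := hb.2 0 0 v' (le_refl _) (le_refl _) (by omega) ⟨a + d, b + d2, c, by
          rw [hα, hd2] at e
          linarith⟩
        omega
      have hd2' : 0 < d2 := by
        rcases Nat.eq_zero_or_pos d2 with h | h
        · exfalso; apply hne; omega
        · exact h
      subst hd1'
      have hα : c₁ = α + 1 := by omega
      -- `v' n₃` is divisible by `n₂`
      have hP2 : P n₁ n₂ n₃ n₂ (v' * n₃) := by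
        obtain ⟨d, rfl⟩ : ∃ d, d2 = d + 1 := ⟨d2 - 1, by omega⟩
        refine ⟨a, b + d, c, ?_⟩
        rw [hα] at e'
        rw [hd2] at e
        linarith
      classical
      have hex : ∃ k, P n₁ n₂ n₃ n₂ (k * n₃) := ⟨v', hP2⟩
      obtain ⟨k₃, hk₃def⟩ : ∃ k, k = Nat.find hex := ⟨_, rfl⟩
      have hk₃ : P n₁ n₂ n₃ n₂ (k₃ * n₃) := by rw [hk₃def]; exact Nat.find_spec hex
      have hk₃min : ∀ k, P n₁ n₂ n₃ n₂ (k * n₃) → k₃ ≤ k := fun k hk => by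
        rw [hk₃def]; exact Nat.find_min' hex hk
      have hk₃le : k₃ ≤ v' := hk₃min v' hP2
      have hnot : ¬ P n₁ n₂ n₃ n₁ (k₃ * n₃) := by
        intro h
        have := hb.2 0 0 k₃ (le_refl _) (le_refl _) (by omega) (by simpa using h)
        omega
      obtain ⟨a', b', c', e''⟩ := hk₃
      have ha : a' = 0 := by
        by_contra ha
        obtain ⟨a'', rfl⟩ : ∃ a'', a' = a'' + 1 := ⟨a' - 1, by omega⟩
        exact hnot ⟨a'', b' + 1, c', by linarith⟩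
      subst ha
      have hk₃pos : 0 < k₃ := by
        rcases Nat.eq_zero_or_pos k₃ with h | h
        · exfalso
          rw [h] at e''
          have : 0 * n₃ = 0 := Nat.zero_mul _
          omega
        · exact h
      have hc : c' = 0 := by
        by_contra hc
        obtain ⟨c'', rfl⟩ : ∃ c'', c' = c'' + 1 := ⟨c' - 1, by omega⟩
        obtain ⟨k, rfl⟩ : ∃ k, k₃ = k + 1 := ⟨k₃ - 1, by omega⟩
        have := hk₃min k ⟨0, b', c'', by linarith⟩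
        omega
      subst hc
      apply hQ
      have heq : (b' + 1) * n₂ = k₃ * n₃ := by linarith
      refine ⟨b' + 1, k₃, by omega, hk₃pos, heq, by rw [heq]; exact hnot, ?_, hk₃min⟩
      intro k hP
      by_contra hlt
      obtain ⟨d, hd⟩ : ∃ d, b' = k + d := ⟨b' - k, by omega⟩
      obtain ⟨x, y, z, e3⟩ := hP
      obtain ⟨m, rfl⟩ : ∃ m, k₃ = m + 1 := ⟨k₃ - 1, by omega⟩
      have := hk₃min m ⟨x, y + d, z, by rw [hd] at e''; linarith⟩
      omega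

/-- In the exceptional configuration the bullets of `n₂` are not larger than the value at
`n₃`. -/
theorem bullets_two (h1 : 0 < n₁) (h12 : n₁ < n₂) (h23 : n₂ < n₃)
    (hcof : ((gen n₁ n₂ n₃ : Set ℕ)ᶜ).Finite) (k₂ k₃ : ℕ) (hQ : Q n₁ n₂ n₃ k₂ k₃)
    (u b v : ℕ) (hb : IsBullet n₁ n₂ n₃ n₂ u b v) :
    u + b + v ≤ omegaVal (gen n₁ n₂ n₃) n₃ := by
  have h2 : 0 < n₂ := by omega
  have h3 : 0 < n₃ := by omega
  have hpos := (omega_mem h1 h2 h3 hcof n₃).1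
  obtain ⟨hk₂, hk₃, hkk, hnot, hmin2, hmin3⟩ := hQ
  have hP3 : P n₁ n₂ n₃ n₂ (k₃ * n₃) := by
    obtain ⟨m, rfl⟩ : ∃ m, k₂ = m + 1 := ⟨k₂ - 1, by omega⟩
    exact ⟨0, m, 0, by linarith⟩
  have hP2 : P n₁ n₂ n₃ n₃ (k₂ * n₂) := by
    obtain ⟨m, rfl⟩ : ∃ m, k₃ = m + 1 := ⟨k₃ - 1, by omega⟩
    exact ⟨0, 0, m, by linarith⟩
  by_cases hb0 : 0 < b
  · have := hb.2 0 1 0 (by omega) (by omega) (by omega) ⟨0, 0, 0, by ring⟩
    omega
  obtain rfl : b = 0 := by omega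
  obtain ⟨α, β, δ, e⟩ := hb.1
  -- the value at `n₃` is at least `k₂`
  have hk₂ω : k₂ ≤ omegaVal (gen n₁ n₂ n₃) n₃ := by
    obtain ⟨k, hk, hkmin, hkb⟩ := exists_A23 (n₁ := n₁) h2 h3
    have hle := le_omega h1 h2 h3 hcof n₃ 0 k hkb
    have := hmin2 k hk
    omega
  have hk32 : k₃ < k₂ := by
    have : k₃ * n₂ < k₂ * n₂ := by
      rw [hkk]
      exact Nat.mul_lt_mul_of_pos_left h23 hk₃
    exact lt_of_mul_lt_mul_right this (Nat.zero_le _)
  by_cases hu : 0 < u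
  · have hα : α = 0 := by
      by_contra hα
      obtain ⟨α', rfl⟩ : ∃ α', α = α' + 1 := ⟨α - 1, by omega⟩
      obtain ⟨u', rfl⟩ : ∃ u', u = u' + 1 := ⟨u - 1, by omega⟩
      have := hb.2 u' 0 v (by omega) (le_refl _) (le_refl _) ⟨α', β, δ, by linarith⟩
      omega
    subst hα
    by_cases hv : 0 < v
    · -- interior: impossible
      exfalso
      have hδ : δ = 0 := by
        by_contra hδ
        obtain ⟨δ', rfl⟩ : ∃ δ', δ = δ' + 1 := ⟨δ - 1, by omega⟩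
        obtain ⟨v', rfl⟩ : ∃ v', v = v' + 1 := ⟨v - 1, by omega⟩
        have := hb.2 u 0 v' (le_refl _) (le_refl _) (by omega) ⟨0, β, δ', by linarith⟩
        omega
      subst hδ
      have hvk : v < k₃ := by
        by_contra hcon
        have := hb.2 0 0 k₃ (by omega) (le_refl _) (by omega) (by simpa using hP3)
        omega
      have hc : k₂ ≤ β + 1 := by
        apply hmin2
        obtain ⟨v', rfl⟩ : ∃ v', v = v' + 1 := ⟨v - 1, by omega⟩
        exact ⟨u, 0, v', by linarith⟩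
      obtain ⟨d, hd⟩ := Nat.exists_eq_add_of_le hc
      obtain ⟨d', hd'⟩ : ∃ d', k₃ = v + d' := ⟨k₃ - v, by omega⟩
      have e2 : u * n₁ = d * n₂ + d' * n₃ := by
        have k1 : (β + 1) * n₂ = k₂ * n₂ + d * n₂ := by rw [hd]; ring
        rw [hd'] at hkk
        linarith
      rcases Nat.eq_zero_or_pos d with hz | hz
      · apply hnot
        subst hz
        obtain ⟨u', rfl⟩ : ∃ u', u = u' + 1 := ⟨u - 1, by omega⟩
        refine ⟨u', 0, v, ?_⟩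
        rw [hkk, hd']
        linarith
      · obtain ⟨m, rfl⟩ : ∃ m, d = m + 1 := ⟨d - 1, by omega⟩
        have := hb.2 u 0 0 (le_refl _) (le_refl _) (by omega) ⟨0, m, d', by linarith⟩
        omega
    · -- `(u, 0, 0)`
      obtain rfl : v = 0 := by omega
      obtain ⟨k, hk, hkmin, hkb⟩ := exists_A13 (n₂ := n₂) h1 h3
      have hle := le_omega h1 h2 h3 hcof n₃ k 0 hkb
      by_cases hcmp : u ≤ k
      · omega
      · exfalso
        have hnot2 : ¬ P n₁ n₂ n₃ n₂ (k * n₁) := by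
          intro h
          have := hb.2 k 0 0 (by omega) (le_refl _) (le_refl _) (by simpa using h)
          omega
        obtain ⟨a, b, c, e'⟩ := hk
        have hb0 : b = 0 := by
          by_contra hb0
          obtain ⟨b', rfl⟩ : ∃ b', b = b' + 1 := ⟨b - 1, by omega⟩
          exact hnot2 ⟨a, b', c + 1, by linarith⟩
        subst hb0
        have hkpos : 0 < k := by
          rcases Nat.eq_zero_or_pos k with h | h
          · exfalso
            rw [h] at e'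
            have : 0 * n₁ = 0 := Nat.zero_mul _
            omega
          · exact h
        have ha : a = 0 := by
          by_contra ha
          obtain ⟨a', rfl⟩ : ∃ a', a = a' + 1 := ⟨a - 1, by omega⟩
          obtain ⟨m, rfl⟩ : ∃ m, k = m + 1 := ⟨k - 1, by omega⟩
          have := hkmin m ⟨a', 0, c, by linarith⟩
          omega
        subst ha
        rcases Nat.lt_or_ge (c + 1) k₃ with h | h
        · obtain ⟨d, hd⟩ : ∃ d, k₃ = c + 1 + d := ⟨k₃ - (c + 1), by omega⟩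
          apply hnot
          obtain ⟨m, rfl⟩ : ∃ m, k = m + 1 := ⟨k - 1, by omega⟩
          refine ⟨m, 0, d, ?_⟩
          rw [hkk, hd]
          linarith
        · obtain ⟨d, hd⟩ := Nat.exists_eq_add_of_le h
          apply hnot2
          obtain ⟨m, rfl⟩ : ∃ m, k₂ = m + 1 := ⟨k₂ - 1, by omega⟩
          refine ⟨0, m, d, ?_⟩
          have k1 : (c + 1) * n₃ = k₃ * n₃ + d * n₃ := by rw [hd]; ring
          linarith
  · -- `(0, 0, v)`
    obtain rfl : u = 0 := by omega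
    have hle : v ≤ k₃ := by
      by_contra hcon
      have := hb.2 0 0 k₃ (le_refl _) (le_refl _) (by omega) (by simpa using hP3)
      omega
    omega

theorem min_le (h1 : 0 < n₁) (h12 : n₁ < n₂) (h23 : n₂ < n₃)
    (hcof : ((gen n₁ n₂ n₃ : Set ℕ)ᶜ).Finite) :
    omegaVal (gen n₁ n₂ n₃) n₁ ≤ omegaVal (gen n₁ n₂ n₃) n₃ ∨
      omegaVal (gen n₁ n₂ n₃) n₂ ≤ omegaVal (gen n₁ n₂ n₃) n₃ := by
  have h2 : 0 < n₂ := by omega
  have h3 : 0 < n₃ := by omega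
  have hpos := (omega_mem h1 h2 h3 hcof n₃).1
  by_cases hQ : ∃ k₂ k₃, Q n₁ n₂ n₃ k₂ k₃
  · obtain ⟨k₂, k₃, hQ⟩ := hQ
    right
    exact omega_le n₂ _ hpos (fun b₁ b₂ b₃ hb =>
      bullets_two h1 h12 h23 hcof k₂ k₃ hQ b₁ b₂ b₃ hb)
  · left
    exact omega_le n₁ _ hpos (fun b₁ b₂ b₃ hb => bullets_one h1 h12 h23 hcof hQ b₁ b₂ b₃ hb)

end main

theorem result (n₁ n₂ n₃ : ℕ) (h12 : n₁ < n₂) (h23 : n₂ < n₃) (Γ : AddSubmonoid ℕ)
    (hΓ : Γ = AddSubmonoid.closure {n₁, n₂, n₃}) (hcof : ((Γ : Set ℕ)ᶜ).Finite)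
    (hmin₁ : n₁ ∉ AddSubmonoid.closure {n₂, n₃}) (_hmin₂ : n₂ ∉ AddSubmonoid.closure {n₁, n₃})
    (_hmin₃ : n₃ ∉ AddSubmonoid.closure {n₁, n₂}) :
    ¬ (omegaVal Γ n₁ > omegaVal Γ n₂ ∧ omegaVal Γ n₂ > omegaVal Γ n₃) ∧
    ¬ (omegaVal Γ n₁ = omegaVal Γ n₂ ∧ omegaVal Γ n₂ > omegaVal Γ n₃) ∧
    ¬ (omegaVal Γ n₃ < omegaVal Γ n₁ ∧ omegaVal Γ n₁ < omegaVal Γ n₂) := by
  subst hΓ
  have h1 : 0 < n₁ := by
    rcases Nat.eq_zero_or_pos n₁ with h | h
    · exfalso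
      apply hmin₁
      rw [h]
      exact zero_mem _
    · exact h
  have key := min_le h1 h12 h23 hcof
  simp only [gen] at key
  omega

end Pool.Agent.Results.MP_1fb722_al.OrderingsExcluded
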